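import Pool.Agent.Helper24.MA.Defs

/-!
# The non-free Jordan blocks as direct summands (module MA-03)

`N ^ p = 0` on a finite dimensional space `U`, `r = hrk p N = dim ker N - dim range (N ^ (p-1))`. Then there are `r`
operators `Ni i` on spaces `V i` of dimension not divisible by `p` which are simultaneous direct
summands of `(U, N)`: maps `A i`, `B i` commuting with the operators with `B i A i = 1`, `B i A j = 0`.
PROOF (either way): (a) Mathlib's structure theorem for the `K[X]`-module `Module.AEval' N`
(`Module.torsion_by_prime_power_decomposition` with the prime `X`, in Mathlib.Algebra.Module.PID): the module is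
the direct sum of `K[X]/(X^(e_j))`, `e_j ≤ p` since `N ^ p = 0`; the number of `j` with `1 ≤ e_j` is `dim ker N`, the number of
`j` with `e_j = p` is `dim range (N ^ (p-1))`; take the summands with `1 ≤ e_j < p` (dimension `e_j`, not divisible by `p`).
(b) or by induction on `dim U`: if `N = 0` take a basis (for `p ≥ 2` all blocks have length 1, `r = dim U`; for `p = 1`
`r = 0`). In general let `a` be maximal with `N ^ (a-1) ≠ 0`, choose `v` with
`N ^ (a-1) v ≠ 0` and a linear form `f` with `f (N ^ (a-1) v) = 1`. Then `U1 = span (v, N v, ..., N ^ (a-1) v)` and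
`U2 = {w | f (N ^ i w) = 0 for all i < a}` are `N`-stable and complementary (the matrix `f (N ^ (i+j) v)`
is antitriangular with ones on the antidiagonal, and `U2` has codimension at most `a`). `hrk` is additive, and
`hrk` of the block of length `a` is `1` if `a < p` and `0` if `a = p`; apply the induction hypothesis to `U2`.
-/

namespace Pool.Agent.Helper24.MA

open Polynomial in
private abbrev Wk (K : Type) [Field K] (k : ℕ) : Type := K[X] ⧸ (Submodule.span K[X] {(X : K[X]) ^ k})

open Polynomial in
private noncomputable def mulX (K : Type) [Field K] (k : ℕ) : Wk K k →ₗ[K] Wk K k :=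
  ((X : K[X]) • (LinearMap.id : Wk K k →ₗ[K[X]] Wk K k)).restrictScalars K

open Polynomial in
private theorem mulX_apply (K : Type) [Field K] (k : ℕ) (w : Wk K k) :
    mulX K k w = (X : K[X]) • w := rfl

open Polynomial in
private theorem mulX_pow (K : Type) [Field K] (k j : ℕ) (w : Wk K k) :
    (mulX K k ^ j) w = ((X : K[X]) ^ j) • w := by
  induction j generalizing w with
  | zero => simp
  | succ j ih =>
    rw [pow_succ, Module.End.mul_apply, ih, mulX_apply, smul_smul, ← pow_succ]

open Polynomial in
private theorem wk_finrank (K : Type) [Field K] (k : ℕ) : Module.finrank K (Wk K k) = k := by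
  have h := finrank_quotient_span_eq_natDegree (f := (X : K[X]) ^ k)
  rw [natDegree_X_pow] at h
  exact h

open Polynomial in
private theorem wk_mk (K : Type) [Field K] {k : ℕ} (hk : 0 < k) (h : K[X]) :
    (Submodule.Quotient.mk (X ^ (k - 1) * h) : Wk K k)
      = h.coeff 0 • (Submodule.Quotient.mk (X ^ (k - 1)) : Wk K k) := by
  rw [← Submodule.Quotient.mk_smul, Submodule.Quotient.eq, Submodule.mem_span_singleton]
  obtain ⟨g, hg⟩ := X_dvd_sub_C (p := h)
  refine ⟨g, ?_⟩
  have h1 : k = k - 1 + 1 := by omega
  have h2 : h.coeff 0 • (X : K[X]) ^ (k - 1) = C (h.coeff 0) * X ^ (k - 1) := smul_eq_C_mul _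
  rw [h2, smul_eq_mul]
  calc g * X ^ k = X ^ (k - 1) * (X * g) := by
        conv_lhs => rw [h1, pow_succ]
        ring
    _ = X ^ (k - 1) * h - C (h.coeff 0) * X ^ (k - 1) := by
        rw [← hg]
        ring

open Polynomial in
private theorem wk_ne (K : Type) [Field K] {k : ℕ} (hk : 0 < k) :
    (Submodule.Quotient.mk (X ^ (k - 1)) : Wk K k) ≠ 0 := by
  intro h
  rw [Submodule.Quotient.mk_eq_zero, Submodule.mem_span_singleton] at h
  obtain ⟨g, hg⟩ := h
  rw [smul_eq_mul] at hg
  have h1 : (X : K[X]) ^ k ∣ X ^ (k - 1) := ⟨g, by rw [← hg]; ring⟩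
  have h2 := natDegree_le_of_dvd h1 (pow_ne_zero _ X_ne_zero)
  rw [natDegree_X_pow, natDegree_X_pow] at h2
  omega

open Polynomial in
private theorem wk_ker (K : Type) [Field K] (k : ℕ) :
    Module.finrank K (LinearMap.ker (mulX K k)) = if k = 0 then 0 else 1 := by
  by_cases hk : k = 0
  · rw [if_pos hk]
    have h1 := wk_finrank K k
    have : Module.Finite K (Wk K k) := by
      subst hk
      have : Subsingleton (Wk K 0) := by
        rw [Submodule.Quotient.subsingleton_iff]
        simp
      infer_instance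
    have h2 := Submodule.finrank_le (LinearMap.ker (mulX K k))
    omega
  · rw [if_neg hk]
    have hk' : 0 < k := Nat.pos_of_ne_zero hk
    have hv : (Submodule.Quotient.mk (X ^ (k - 1)) : Wk K k) ∈ LinearMap.ker (mulX K k) := by
      rw [LinearMap.mem_ker, mulX_apply, ← Submodule.Quotient.mk_smul, Submodule.Quotient.mk_eq_zero,
        smul_eq_mul, ← pow_succ', Nat.sub_add_cancel hk']
      exact Submodule.mem_span_singleton_self _
    rw [finrank_eq_one_iff_of_nonzero' (⟨_, hv⟩ : LinearMap.ker (mulX K k))
      (fun h => wk_ne K hk' (congrArg Subtype.val h))]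
    rintro ⟨w, hw⟩
    obtain ⟨f, rfl⟩ := Submodule.Quotient.mk_surjective _ w
    rw [LinearMap.mem_ker, mulX_apply, ← Submodule.Quotient.mk_smul,
      Submodule.Quotient.mk_eq_zero, Submodule.mem_span_singleton] at hw
    obtain ⟨g, hg⟩ := hw
    rw [smul_eq_mul, smul_eq_mul] at hg
    have h3 : f = X ^ (k - 1) * g := by
      have h4 : X * f = X * (X ^ (k - 1) * g) := by
        rw [← hg, ← mul_assoc, ← pow_succ', Nat.sub_add_cancel hk', mul_comm]
      exact mul_left_cancel₀ X_ne_zero h4
    refine ⟨g.coeff 0, Subtype.ext ?_⟩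
    have h6 : (Submodule.Quotient.mk f : Wk K k)
        = g.coeff 0 • (Submodule.Quotient.mk (X ^ (k - 1)) : Wk K k) := by
      rw [h3]
      exact wk_mk K hk' g
    exact h6.symm

open Polynomial in
private theorem wk_range (K : Type) [Field K] {p k : ℕ} (hp : 0 < p) (hk : k ≤ p) :
    Module.finrank K (LinearMap.range (mulX K k ^ (p - 1))) = if k = p then 1 else 0 := by
  by_cases h : k = p
  · rw [if_pos h]
    subst h
    have hv : (Submodule.Quotient.mk (X ^ (k - 1)) : Wk K k) ∈
        LinearMap.range (mulX K k ^ (k - 1)) := by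
      refine ⟨Submodule.Quotient.mk 1, ?_⟩
      rw [mulX_pow, ← Submodule.Quotient.mk_smul, smul_eq_mul, mul_one]
    rw [finrank_eq_one_iff_of_nonzero' (⟨_, hv⟩ : LinearMap.range (mulX K k ^ (k - 1)))
      (fun h => wk_ne K hp (congrArg Subtype.val h))]
    rintro ⟨w, hw⟩
    obtain ⟨y, rfl⟩ := hw
    obtain ⟨f, rfl⟩ := Submodule.Quotient.mk_surjective _ y
    refine ⟨f.coeff 0, Subtype.ext ?_⟩
    have h5 : (mulX K k ^ (k - 1)) (Submodule.Quotient.mk f)
        = (Submodule.Quotient.mk (X ^ (k - 1) * f) : Wk K k) := by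
      rw [mulX_pow, ← Submodule.Quotient.mk_smul, smul_eq_mul]
    exact (wk_mk K hp f).symm.trans h5.symm
  · rw [if_neg h]
    have h1 : mulX K k ^ (p - 1) = 0 := by
      apply LinearMap.ext
      intro w
      obtain ⟨f, rfl⟩ := Submodule.Quotient.mk_surjective _ w
      rw [mulX_pow, ← Submodule.Quotient.mk_smul, LinearMap.zero_apply,
        Submodule.Quotient.mk_eq_zero, smul_eq_mul, Submodule.mem_span_singleton]
      refine ⟨X ^ (p - 1 - k) * f, ?_⟩
      rw [smul_eq_mul, mul_right_comm, ← pow_add]
      congr 2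
      omega
    rw [h1, LinearMap.range_zero, finrank_bot]

theorem exists_blocks {K U : Type} [Field K] [AddCommGroup U] [Module K U]
    [FiniteDimensional K U] (p : ℕ) (hp : 0 < p) (N : U →ₗ[K] U) (hN : N ^ p = 0) :
    ∃ (V : Fin (hrk p N) → Type) (_ : ∀ i, AddCommGroup (V i)) (_ : ∀ i, Module K (V i))
      (_ : ∀ i, FiniteDimensional K (V i)) (Ni : ∀ i, V i →ₗ[K] V i)
      (A : ∀ i, V i →ₗ[K] U) (B : ∀ i, U →ₗ[K] V i),
      (∀ i, B i ∘ₗ A i = LinearMap.id) ∧ (∀ i j, i ≠ j → B i ∘ₗ A j = 0) ∧
      (∀ i, A i ∘ₗ Ni i = N ∘ₗ A i) ∧ (∀ i, B i ∘ₗ N = Ni i ∘ₗ B i) ∧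
      ∀ i, ¬ p ∣ Module.finrank K (V i) := by
  classical
  open Polynomial in
  obtain ⟨d, k, ⟨e⟩⟩ := Module.torsion_by_prime_power_decomposition (R := K[X])
    (M := Module.AEval' N) (p := X) irreducible_X (by
      intro x
      refine ⟨⟨X ^ p, p, rfl⟩, ?_⟩
      obtain ⟨u, rfl⟩ := (Module.AEval'.of N).surjective x
      change (X ^ p : K[X]) • (Module.AEval'.of N) u = 0
      rw [Module.AEval'.X_pow_smul_of, hN]
      simp)
  -- the decomposition over `K`
  let Φ : U ≃ₗ[K] (∀ i, Wk K (k i)) :=
    (Module.AEval'.of N).trans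
      ((e.trans (DirectSum.linearEquivFunOnFintype (Polynomial K) (Fin d)
        (fun i => Wk K (k i)))).restrictScalars K)
  have hΦ : ∀ u i, Φ (N u) i = mulX K (k i) (Φ u i) := by
    intro u i
    have h1 : Module.AEval'.of N (N u) = (Polynomial.X : Polynomial K) • Module.AEval'.of N u :=
      (Module.AEval'.X_smul_of N u).symm
    change (e.trans (DirectSum.linearEquivFunOnFintype (Polynomial K) (Fin d)
        (fun i => Wk K (k i)))) (Module.AEval'.of N (N u)) i = _
    rw [h1, map_smul]
    rfl
  have hΦs : ∀ w, N (Φ.symm w) = Φ.symm (fun i => mulX K (k i) (w i)) := by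
    intro w
    apply Φ.injective
    rw [LinearEquiv.apply_symm_apply]
    funext i
    rw [hΦ, LinearEquiv.apply_symm_apply]
  have hpow : ∀ (j : ℕ) u i, Φ ((N ^ j) u) i = (mulX K (k i) ^ j) (Φ u i) := by
    intro j
    induction j with
    | zero => intro u i; simp
    | succ j ih =>
      intro u i
      rw [pow_succ, Module.End.mul_apply, ih, hΦ, pow_succ, Module.End.mul_apply]
  have hkp : ∀ i, k i ≤ p := by
    intro i
    by_contra hlt
    push Not at hlt
    have h1 := hpow p (Φ.symm (Pi.single i (Submodule.Quotient.mk 1))) i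
    rw [hN, LinearMap.zero_apply, map_zero, LinearEquiv.apply_symm_apply, Pi.single_eq_same,
      mulX_pow, ← Submodule.Quotient.mk_smul, smul_eq_mul, mul_one] at h1
    have h2 := h1.symm
    change (Submodule.Quotient.mk (Polynomial.X ^ p) : Wk K (k i)) = 0 at h2
    rw [Submodule.Quotient.mk_eq_zero, Submodule.mem_span_singleton] at h2
    obtain ⟨g, hg⟩ := h2
    rw [smul_eq_mul] at hg
    have h3 : (Polynomial.X : Polynomial K) ^ k i ∣ Polynomial.X ^ p := ⟨g, by rw [← hg]; ring⟩
    have h4 := Polynomial.natDegree_le_of_dvd h3 (pow_ne_zero _ Polynomial.X_ne_zero)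
    rw [Polynomial.natDegree_X_pow, Polynomial.natDegree_X_pow] at h4
    omega
  have hfin : ∀ i, FiniteDimensional K (Wk K (k i)) := fun i =>
    Module.Finite.of_surjective ((LinearMap.proj i).comp Φ.toLinearMap : U →ₗ[K] Wk K (k i))
      (fun w => ⟨Φ.symm (Pi.single i w), by simp⟩)
  -- the kernel
  have hker : Module.finrank K (LinearMap.ker N) = ∑ i, if k i = 0 then 0 else 1 := by
    let E : LinearMap.ker N ≃ₗ[K] (∀ i, LinearMap.ker (mulX K (k i))) :=
      { toFun := fun u i => ⟨Φ u.1 i, by
          rw [LinearMap.mem_ker, ← hΦ, LinearMap.mem_ker.1 u.2, map_zero]; rfl⟩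
        invFun := fun w => ⟨Φ.symm (fun i => (w i).1), by
          rw [LinearMap.mem_ker, hΦs]
          have : (fun i => mulX K (k i) ((w i).1)) = 0 := by
            funext i
            exact LinearMap.mem_ker.1 (w i).2
          rw [this, map_zero]⟩
        map_add' := fun x y => by funext i; apply Subtype.ext; simp
        map_smul' := fun c x => by funext i; apply Subtype.ext; simp
        left_inv := fun u => by apply Subtype.ext; simp
        right_inv := fun w => by funext i; apply Subtype.ext; simp }
    have h1 : ∀ i, Module.Free K (LinearMap.ker (mulX K (k i))) := fun i =>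
      Module.Free.of_divisionRing K _
    have h2 : ∀ i, Module.Finite K (LinearMap.ker (mulX K (k i))) := fun i => inferInstance
    rw [E.finrank_eq, Module.finrank_pi_fintype]
    exact Finset.sum_congr rfl fun i _ => wk_ker K (k i)
  have hran : Module.finrank K (LinearMap.range (N ^ (p - 1))) = ∑ i, if k i = p then 1 else 0 := by
    let E : LinearMap.range (N ^ (p - 1)) ≃ₗ[K]
        (∀ i, LinearMap.range (mulX K (k i) ^ (p - 1))) :=
      { toFun := fun u i => ⟨Φ u.1 i, by
          obtain ⟨v, hv⟩ := u.2
          exact ⟨Φ v i, by rw [← hpow, hv]⟩⟩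
        invFun := fun w => ⟨Φ.symm (fun i => (w i).1), by
          refine ⟨Φ.symm (fun i => (w i).2.choose), ?_⟩
          apply Φ.injective
          funext i
          rw [hpow, LinearEquiv.apply_symm_apply, LinearEquiv.apply_symm_apply]
          exact (w i).2.choose_spec⟩
        map_add' := fun x y => by funext i; apply Subtype.ext; simp
        map_smul' := fun c x => by funext i; apply Subtype.ext; simp
        left_inv := fun u => by apply Subtype.ext; simp
        right_inv := fun w => by funext i; apply Subtype.ext; simp }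
    have h1 : ∀ i, Module.Free K (LinearMap.range (mulX K (k i) ^ (p - 1))) := fun i =>
      Module.Free.of_divisionRing K _
    have h2 : ∀ i, Module.Finite K (LinearMap.range (mulX K (k i) ^ (p - 1))) := fun i =>
      inferInstance
    rw [E.finrank_eq, Module.finrank_pi_fintype]
    exact Finset.sum_congr rfl fun i _ => wk_range K hp (hkp i)
  have hcard : Fintype.card {i : Fin d // 0 < k i ∧ k i < p} = hrk p N := by
    unfold hrk
    rw [hker, hran, Fintype.card_subtype]
    have h1 : (∑ i, if k i = 0 then 0 else 1)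
        = (∑ i, if k i = p then 1 else 0) + ∑ i, (if 0 < k i ∧ k i < p then 1 else 0) := by
      rw [← Finset.sum_add_distrib]
      refine Finset.sum_congr rfl fun i _ => ?_
      have h2 := hkp i
      split_ifs <;> omega
    rw [h1, Nat.add_sub_cancel_left, Finset.card_filter]
  let ε : Fin (hrk p N) ≃ {i : Fin d // 0 < k i ∧ k i < p} :=
    (Fintype.equivFinOfCardEq hcard).symm
  refine ⟨fun j => Wk K (k (ε j).1), fun j => inferInstance, fun j => inferInstance,
    fun j => hfin _, fun j => mulX K (k (ε j).1),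
    fun j => Φ.symm.toLinearMap ∘ₗ LinearMap.single K (fun i => Wk K (k i)) (ε j).1,
    fun j => LinearMap.proj (ε j).1 ∘ₗ Φ.toLinearMap, ?_, ?_, ?_, ?_, ?_⟩
  · intro j
    apply LinearMap.ext
    intro w
    simp
  · intro i j hij
    have hne : (ε i).1 ≠ (ε j).1 := fun h => hij (ε.injective (Subtype.ext h))
    apply LinearMap.ext
    intro w
    simp [Pi.single_eq_of_ne hne]
  · intro j
    apply LinearMap.ext
    intro w
    change Φ.symm (Pi.single (ε j).1 (mulX K (k (ε j).1) w)) = N (Φ.symm (Pi.single (ε j).1 w))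
    rw [hΦs]
    congr 1
    funext i
    by_cases hi : i = (ε j).1
    · subst hi
      rw [Pi.single_eq_same, Pi.single_eq_same]
    · rw [Pi.single_eq_of_ne hi, Pi.single_eq_of_ne hi, map_zero]
  · intro j
    apply LinearMap.ext
    intro u
    exact hΦ u _
  · intro j
    rw [wk_finrank]
    exact fun h => absurd (Nat.le_of_dvd (ε j).2.1 h) (by have := (ε j).2.2; omega)

end Pool.Agent.Helper24.MA
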