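import Pool.Agent.Helper24.MA.Defs

/-!
# Elementary facts about hrk (module MA-02)

`hrk_eq`: `range (N ^ (p-1)) ≤ ker N` because `N ^ p = 0`, so the subtraction in `hrk` is exact, and
rank-nullity for `N`.
`hrk_pos`: for `i ≤ p - 1` the map `N : range (N ^ i) → range (N ^ (i+1))` is surjective with kernel
`ker N ⊓ range (N ^ i)`, so `dim range (N ^ i) = dim range (N ^ (i+1)) + dim (ker N ⊓ range (N ^ i))`. If `hrk p N = 0`
then `ker N = range (N ^ (p-1)) ≤ range (N ^ i)` for all `i ≤ p - 1`, so all the `p` differences equal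
`dim ker N` and `dim U = p * dim ker N`, since `range (N ^ 0) = ⊤` and `range (N ^ p) = ⊥`.
-/

namespace Pool.Agent.Helper24.MA

variable {K U : Type} [Field K] [AddCommGroup U] [Module K U] [FiniteDimensional K U]

omit [FiniteDimensional K U] in
theorem hrk_range_le_ker (p : ℕ) (hp : 0 < p) (N : U →ₗ[K] U) (hN : N ^ p = 0) :
    LinearMap.range (N ^ (p - 1)) ≤ LinearMap.ker N := by
  rintro _ ⟨x, rfl⟩
  rw [LinearMap.mem_ker, ← Module.End.mul_apply, ← pow_succ', Nat.sub_add_cancel hp, hN,
    LinearMap.zero_apply]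

omit [FiniteDimensional K U] in
theorem hrk_range_anti (N : U →ₗ[K] U) {i j : ℕ} (hij : i ≤ j) :
    LinearMap.range (N ^ j) ≤ LinearMap.range (N ^ i) := by
  rintro _ ⟨x, rfl⟩
  refine ⟨(N ^ (j - i)) x, ?_⟩
  rw [← Module.End.mul_apply, ← pow_add, Nat.add_sub_cancel' hij]

theorem hrk_step (N : U →ₗ[K] U) (i : ℕ) (hi : LinearMap.ker N ≤ LinearMap.range (N ^ i)) :
    Module.finrank K (LinearMap.range (N ^ (i + 1))) + Module.finrank K (LinearMap.ker N) =
      Module.finrank K (LinearMap.range (N ^ i)) := by
  have h := LinearMap.finrank_range_add_finrank_ker (N.domRestrict (LinearMap.range (N ^ i)))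
  have h1 : LinearMap.range (N.domRestrict (LinearMap.range (N ^ i))) =
      LinearMap.range (N ^ (i + 1)) := by
    rw [LinearMap.range_domRestrict, pow_succ', Module.End.mul_eq_comp, LinearMap.range_comp]
  have h2 : Module.finrank K (LinearMap.ker (N.domRestrict (LinearMap.range (N ^ i)))) =
      Module.finrank K (LinearMap.ker N) := by
    rw [LinearMap.ker_domRestrict]
    exact LinearEquiv.finrank_eq (Submodule.comapSubtypeEquivOfLe hi)
  rw [h1, h2] at h
  exact h

theorem hrk_eq (p : ℕ) (hp : 0 < p) (N : U →ₗ[K] U) (hN : N ^ p = 0) :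
    hrk p N + Module.finrank K (LinearMap.range N) +
      Module.finrank K (LinearMap.range (N ^ (p - 1))) = Module.finrank K U := by
  have h1 := Submodule.finrank_mono (hrk_range_le_ker p hp N hN)
  have h2 := LinearMap.finrank_range_add_finrank_ker N
  unfold hrk
  omega

theorem hrk_pos (p : ℕ) (hp : 0 < p) (N : U →ₗ[K] U) (hN : N ^ p = 0)
    (hd : ¬ p ∣ Module.finrank K U) : 0 < hrk p N := by
  by_contra h0
  apply hd
  have hle := hrk_range_le_ker p hp N hN
  have h1 := Submodule.finrank_mono hle
  have h2 : LinearMap.range (N ^ (p - 1)) = LinearMap.ker N := by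
    apply Submodule.eq_of_le_of_finrank_eq hle
    unfold hrk at h0
    omega
  have key : ∀ i : ℕ, i ≤ p → Module.finrank K (LinearMap.range (N ^ (p - i))) =
      i * Module.finrank K (LinearMap.ker N) := by
    intro i
    induction i with
    | zero =>
      intro _
      rw [Nat.sub_zero, hN, LinearMap.range_zero, finrank_bot, zero_mul]
    | succ i ih =>
      intro hi
      have h3 := ih (by omega)
      have h4 := hrk_step N (p - (i + 1)) (by
        rw [← h2]
        exact hrk_range_anti N (by omega))
      rw [show p - (i + 1) + 1 = p - i by omega] at h4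
      rw [← h4, h3]
      ring
  have h3 := key p le_rfl
  rw [Nat.sub_self, pow_zero, Module.End.one_eq_id, LinearMap.range_id, finrank_top] at h3
  exact ⟨_, h3⟩

end Pool.Agent.Helper24.MA
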