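import Pool.Agent.Helper24.MA.Op.Hom
import Pool.Agent.Helper24.MA.Op.Pos
import Pool.Agent.Helper24.MA.Op.Blocks

/-!
# The operator f ↦ N f - f N (module MA-04)

`adOp_pow`: `adOp N = L - R` with the commuting operators `L f = N f`, `R f = f N` on `End U`; in
characteristic `p`, `(L - R) ^ p = L ^ p - R ^ p` (`sub_pow_char_of_commute`; `Module.End K (Module.End K U)`
has characteristic `p` when `U ≠ 0`, the case `U = 0` is trivial) and `L ^ p = 0 = R ^ p` since `N ^ p = 0`.
`hrk_ad`: take the summands `(V i, Ni i)`, `i < r = hrk p N`, of `exists_blocks`. For a pair `(i, j)` let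
`V' (i,j) = V j →ₗ V i` with the operator `N' (i,j) g = Ni i g - g Ni j`, and the maps
`A' (i,j) g = A i g B j`, `B' (i,j) f = B i f A j`; they commute with the operators, `B' (i,j) A' (i,j) = 1` and
`B' (i,j) A' (i',j') = 0` if `(i,j) ≠ (i',j')`. `dim V' (i,j) = dim V i * dim V j` is not divisible by the prime
`p`, and `N' (i,j) ^ p = 0` as above, so `hrk p (N' (i,j)) ≥ 1` (`hrk_pos`); `hrk_sum_le` with index type
`Fin r × Fin r` gives `r * r ≤ hrk p (adOp N)`.
-/

namespace Pool.Agent.Helper24.MA

/-- the operator `g ↦ M g - g N` on `Hom(V, W)` -/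
private noncomputable def bop {K V W : Type} [Field K] [AddCommGroup V] [Module K V]
    [AddCommGroup W] [Module K W] (M : W →ₗ[K] W) (N : V →ₗ[K] V) :
    (V →ₗ[K] W) →ₗ[K] (V →ₗ[K] W) :=
  LinearMap.compRight K M - LinearMap.lcomp K W N

private lemma bop_apply {K V W : Type} [Field K] [AddCommGroup V] [Module K V]
    [AddCommGroup W] [Module K W] (M : W →ₗ[K] W) (N : V →ₗ[K] V) (g : V →ₗ[K] W) :
    bop M N g = M ∘ₗ g - g ∘ₗ N := by
  ext v
  simp [bop]

private lemma bop_pow {K V W : Type} [Field K] [AddCommGroup V] [Module K V]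
    [AddCommGroup W] [Module K W] (p : ℕ) [Fact p.Prime] [CharP K p]
    (M : W →ₗ[K] W) (N : V →ₗ[K] V) (hM : M ^ p = 0) (hN : N ^ p = 0) :
    bop M N ^ p = 0 := by
  rcases subsingleton_or_nontrivial (V →ₗ[K] W) with hs | hn
  · apply LinearMap.ext
    intro g
    exact Subsingleton.elim _ _
  · have hch : CharP (Module.End K (V →ₗ[K] W)) p :=
      charP_of_injective_algebraMap (algebraMap K (Module.End K (V →ₗ[K] W))).injective p
    have hL : ∀ (n : ℕ) (g : V →ₗ[K] W),
        ((LinearMap.compRight K M : Module.End K (V →ₗ[K] W)) ^ n) g = (M ^ n) ∘ₗ g := by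
      intro n
      induction n with
      | zero =>
        intro g
        ext v
        simp
      | succ n ih =>
        intro g
        rw [pow_succ, Module.End.mul_apply, ih, pow_succ]
        ext v
        simp
    have hR : ∀ (n : ℕ) (g : V →ₗ[K] W),
        ((LinearMap.lcomp K W N : Module.End K (V →ₗ[K] W)) ^ n) g = g ∘ₗ (N ^ n) := by
      intro n
      induction n with
      | zero =>
        intro g
        ext v
        simp
      | succ n ih =>
        intro g
        rw [pow_succ, Module.End.mul_apply, ih, pow_succ']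
        ext v
        simp
    have hcomm : Commute (LinearMap.compRight K M : Module.End K (V →ₗ[K] W))
        (LinearMap.lcomp K W N : Module.End K (V →ₗ[K] W)) := by
      ext g v
      simp
    have h := sub_pow_char_of_commute p hcomm
    have h1 : (LinearMap.compRight K M : Module.End K (V →ₗ[K] W)) ^ p = 0 := by
      ext g v
      rw [hL, hM]
      simp
    have h2 : (LinearMap.lcomp K W N : Module.End K (V →ₗ[K] W)) ^ p = 0 := by
      ext g v
      rw [hR, hN]
      simp
    rw [h1, h2, sub_zero] at h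
    exact h

variable {K U : Type} [Field K] [AddCommGroup U] [Module K U] [FiniteDimensional K U]

theorem adOp_pow (p : ℕ) [Fact p.Prime] [CharP K p] (N : U →ₗ[K] U) (hN : N ^ p = 0) :
    adOp N ^ p = 0 := by
  have h : adOp N = bop N N := by
    apply LinearMap.ext
    intro g
    rw [bop_apply]
    rfl
  rw [h]
  exact bop_pow p N N hN hN

theorem hrk_ad (p : ℕ) [Fact p.Prime] [CharP K p] (N : U →ₗ[K] U) (hN : N ^ p = 0) :
    hrk p N * hrk p N ≤ hrk p (adOp N) := by
  classical
  have hp : p.Prime := Fact.out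
  obtain ⟨V, i1, i2, i3, Ni, A, B, hBA, hBA', hA, hB, hd⟩ := exists_blocks p hp.pos N hN
  have hApow : ∀ (i : Fin (hrk p N)) (n : ℕ) (v : V i), A i (((Ni i) ^ n) v) = (N ^ n) (A i v) := by
    intro i n
    induction n with
    | zero => intro v; simp
    | succ n ih =>
      intro v
      rw [pow_succ, pow_succ, Module.End.mul_apply, Module.End.mul_apply, ih]
      have := LinearMap.congr_fun (hA i) v
      simp only [LinearMap.comp_apply] at this
      rw [this]
  have hNi : ∀ i, (Ni i) ^ p = 0 := by
    intro i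
    ext v
    have h1 := LinearMap.congr_fun (hBA i) (((Ni i) ^ p) v)
    simp only [LinearMap.comp_apply, LinearMap.id_apply] at h1
    rw [← h1, hApow, hN]
    simp
  have eBA : ∀ i (v : V i), B i (A i v) = v := fun i v => LinearMap.congr_fun (hBA i) v
  have eBA' : ∀ i j, i ≠ j → ∀ v : V j, B i (A j v) = 0 :=
    fun i j hij v => LinearMap.congr_fun (hBA' i j hij) v
  have eA : ∀ i (v : V i), A i (Ni i v) = N (A i v) := fun i v => LinearMap.congr_fun (hA i) v
  have eB : ∀ i (u : U), B i (N u) = Ni i (B i u) := fun i u => LinearMap.congr_fun (hB i) u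
  have key := hrk_sum_le (ι := Fin (hrk p N) × Fin (hrk p N))
    (V := fun x => V x.2 →ₗ[K] V x.1) (W := U →ₗ[K] U) p hp.pos
    (fun x => bop (Ni x.1) (Ni x.2)) (adOp N)
    (fun x => LinearMap.compRight K (A x.1) ∘ₗ LinearMap.lcomp K (V x.1) (B x.2))
    (fun x => LinearMap.compRight K (B x.1) ∘ₗ LinearMap.lcomp K U (A x.2))
    (by
      intro x
      ext g v
      simp [eBA])
    (by
      intro x y hxy
      ext g v
      by_cases h1 : x.1 = y.1
      · have h2 : y.2 ≠ x.2 := fun h => hxy (Prod.ext h1 h.symm)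
        simp [eBA' _ _ h2]
      · simp [eBA' _ _ h1])
    (by
      intro x
      apply LinearMap.ext
      intro g
      apply LinearMap.ext
      intro u
      simp [bop_apply, adOp, eA, eB])
    (by
      intro x
      apply LinearMap.ext
      intro g
      apply LinearMap.ext
      intro u
      simp [bop_apply, adOp, eA, eB])
    (adOp_pow p N hN)
  have hpos : ∀ x : Fin (hrk p N) × Fin (hrk p N), 1 ≤ hrk p (bop (Ni x.1) (Ni x.2)) := by
    intro x
    apply hrk_pos p hp.pos _ (bop_pow p _ _ (hNi _) (hNi _))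
    rw [Module.finrank_linearMap]
    intro h
    rcases (Nat.Prime.dvd_mul hp).1 h with h | h
    · exact hd _ h
    · exact hd _ h
  have hc : ∑ x : Fin (hrk p N) × Fin (hrk p N), 1 ≤
      ∑ x : Fin (hrk p N) × Fin (hrk p N), hrk p (bop (Ni x.1) (Ni x.2)) :=
    Finset.sum_le_sum fun x _ => hpos x
  have hc' : ∑ x : Fin (hrk p N) × Fin (hrk p N), 1 = hrk p N * hrk p N := by
    simp
  rw [← hc']
  exact le_trans hc key

end Pool.Agent.Helper24.MA
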