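import Pool.Agent.Helper24.MA.Op.Hom
import Pool.Agent.Helper24.MA.Op.Pos

/-!
# Functoriality of the generic operator (module MA-05)

`spOp_pow`: the operators `(ρ x - 1).baseChange F` commute pairwise (`E` is commutative) and the ring
`Module.End F (F ⊗ V)` has characteristic `p` (if `V ≠ 0`), so
`(∑ c x • (ρ x - 1)) ^ p = ∑ (c x) ^ p • (ρ x - 1) ^ p` (induction with `add_pow_char_of_commute`, or
`Finset.sum_pow_char` in a commutative subring) and `(ρ x - 1) ^ p = ρ (x ^ p) - 1 = 0`.
`spOp_intertwine`: `A` commutes with `ρ x - 1`, base change, sum.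
`gr_sum_le`, `gr_sum_eq`: apply `hrk_sum_le`, `hrk_sum_eq` to the base changes of `A i`, `B i` over `Kf k E`.
`gr_pos`: `hrk_pos` and `Module.finrank_baseChange`.
-/

open TensorProduct

namespace Pool.Agent.Helper24.MA

variable {k E : Type} [Field k] [Group E] [Fintype E]

private theorem sum_pow_of_natCast_eq_zero {R ι : Type} [Ring R] (p : ℕ) (hp : p.Prime)
    (h0 : (p : R) = 0) (s : Finset ι) (f : ι → R) (hf : ∀ i j, Commute (f i) (f j)) :
    (∑ i ∈ s, f i) ^ p = ∑ i ∈ s, (f i) ^ p := by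
  classical
  induction s using Finset.induction_on with
  | empty => simp [hp.ne_zero]
  | insert a s ha ih =>
    rw [Finset.sum_insert ha, Finset.sum_insert ha, ← ih]
    have hc : Commute (f a) (∑ i ∈ s, f i) := Commute.sum_right s f (f a) (fun i _ => hf a i)
    obtain ⟨r, hr⟩ := hc.exists_add_pow_prime_eq hp
    rw [hr, h0, zero_mul, zero_mul, zero_mul, add_zero]

private theorem sub_one_pow_of_pow_eq_one {R : Type} [Ring R] (p : ℕ) (hp : p.Prime)
    (h0 : (p : R) = 0) (a : R) (ha : a ^ p = 1) : (a - 1) ^ p = 0 := by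
  have hc : Commute (a - 1) (1 : R) := Commute.one_right _
  obtain ⟨r, hr⟩ := hc.exists_add_pow_prime_eq hp
  rw [sub_add_cancel, ha, one_pow, h0, zero_mul, zero_mul, zero_mul, add_zero] at hr
  have : (a - 1) ^ p = 1 - 1 := by
    rw [eq_sub_iff_add_eq]; exact hr.symm
  rw [this, sub_self]

theorem spOp_pow (p : ℕ) [Fact p.Prime] [CharP k p] (hE : ElAb p E) {V F : Type}
    [AddCommGroup V] [Module k V] [Field F] [Algebra k F] (ρ : Representation k E V) (c : E → F) :
    spOp F ρ c ^ p = 0 := by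
  have hp : p.Prime := Fact.out
  have hk0 : (p : Module.End k V) = 0 := by
    have : (p : Module.End k V) = algebraMap k (Module.End k V) (p : k) :=
      (map_natCast (algebraMap k (Module.End k V)) p).symm
    rw [this, CharP.cast_eq_zero, map_zero]
  have hF0 : (p : Module.End F (F ⊗[k] V)) = 0 := by
    have h1 : (p : Module.End F (F ⊗[k] V)) = algebraMap F (Module.End F (F ⊗[k] V)) (p : F) :=
      (map_natCast (algebraMap F (Module.End F (F ⊗[k] V))) p).symm
    have h2 : (p : F) = algebraMap k F (p : k) := (map_natCast (algebraMap k F) p).symm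
    rw [h1, h2, CharP.cast_eq_zero, map_zero, map_zero]
  have hρ : ∀ x : E, (ρ x - 1 : Module.End k V) ^ p = 0 := by
    intro x
    apply sub_one_pow_of_pow_eq_one p hp hk0
    rw [← map_pow, hE.pow, map_one]
  have hbc : ∀ x : E, ((ρ x - 1 : Module.End k V).baseChange F : Module.End F (F ⊗[k] V)) ^ p = 0 := by
    intro x
    rw [← LinearMap.baseChange_pow, hρ x, LinearMap.baseChange_zero]
  have hcomm : ∀ x y : E, Commute (c x • ((ρ x - 1 : Module.End k V).baseChange F :
      Module.End F (F ⊗[k] V))) (c y • ((ρ y - 1 : Module.End k V).baseChange F)) := by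
    intro x y
    apply Commute.smul_left
    apply Commute.smul_right
    have h : Commute (ρ x - 1 : Module.End k V) (ρ y - 1) := by
      have h1 : Commute (ρ x) (ρ y) := by
        show ρ x * ρ y = ρ y * ρ x
        rw [← map_mul, ← map_mul, hE.comm]
      exact (h1.sub_left (Commute.one_left _)).sub_right ((Commute.one_right _))
    show (ρ x - 1 : Module.End k V).baseChange F * (ρ y - 1 : Module.End k V).baseChange F
      = (ρ y - 1 : Module.End k V).baseChange F * (ρ x - 1 : Module.End k V).baseChange F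
    rw [← LinearMap.baseChange_mul, ← LinearMap.baseChange_mul, h.eq]
  show (∑ x : E, c x • ((ρ x - 1 : Module.End k V).baseChange F :
      Module.End F (F ⊗[k] V))) ^ p = 0
  rw [sum_pow_of_natCast_eq_zero p hp hF0 _ _ hcomm]
  apply Finset.sum_eq_zero
  intro x _
  rw [smul_pow, hbc x, smul_zero]

theorem spOp_intertwine {V W F : Type} [AddCommGroup V] [Module k V] [AddCommGroup W]
    [Module k W] [Field F] [Algebra k F] (ρ : Representation k E V) (τ : Representation k E W)
    (A : V →ₗ[k] W) (hA : ∀ x, A ∘ₗ ρ x = τ x ∘ₗ A) (c : E → F) :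
    A.baseChange F ∘ₗ spOp F ρ c = spOp F τ c ∘ₗ A.baseChange F := by
  unfold spOp
  apply LinearMap.ext
  intro z
  simp only [LinearMap.comp_apply, LinearMap.sum_apply, map_sum, LinearMap.smul_apply, map_smul]
  refine Finset.sum_congr rfl fun x _ => ?_
  congr 1
  rw [← LinearMap.comp_apply, ← LinearMap.comp_apply, ← LinearMap.baseChange_comp,
    ← LinearMap.baseChange_comp]
  congr 2
  apply LinearMap.ext
  intro v
  have hv := LinearMap.congr_fun (hA x) v
  simp only [LinearMap.comp_apply] at hv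
  simp [hv]

section family

variable {ι : Type} [Fintype ι] [DecidableEq ι] {V : ι → Type}
  [∀ i, AddCommGroup (V i)] [∀ i, Module k (V i)] [∀ i, FiniteDimensional k (V i)]
  {W : Type} [AddCommGroup W] [Module k W] [FiniteDimensional k W]

theorem gr_sum_le (p : ℕ) [Fact p.Prime] [CharP k p] (hE : ElAb p E)
    (ρ : ∀ i, Representation k E (V i)) (τ : Representation k E W)
    (A : ∀ i, V i →ₗ[k] W) (B : ∀ i, W →ₗ[k] V i)
    (hBA : ∀ i, B i ∘ₗ A i = LinearMap.id) (hBA' : ∀ i j, i ≠ j → B i ∘ₗ A j = 0)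
    (hA : ∀ i x, A i ∘ₗ ρ i x = τ x ∘ₗ A i) (hB : ∀ i x, B i ∘ₗ τ x = ρ i x ∘ₗ B i) :
    ∑ i, gr p (ρ i) ≤ gr p τ := by
  have hp : p.Prime := Fact.out
  unfold gr
  refine hrk_sum_le (K := Kf k E) (V := fun i => Kf k E ⊗[k] V i) (W := Kf k E ⊗[k] W) p hp.pos
    (fun i => spOp (Kf k E) (ρ i) (tv k)) (spOp (Kf k E) τ (tv k))
    (fun i => (A i).baseChange (Kf k E)) (fun i => (B i).baseChange (Kf k E)) ?_ ?_ ?_ ?_ ?_
  · intro i
    rw [← LinearMap.baseChange_comp, hBA i, LinearMap.baseChange_id]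
  · intro i j hij
    rw [← LinearMap.baseChange_comp, hBA' i j hij, LinearMap.baseChange_zero]
  · intro i
    exact spOp_intertwine (ρ i) τ (A i) (hA i) (tv k)
  · intro i
    exact spOp_intertwine τ (ρ i) (B i) (hB i) (tv k)
  · exact spOp_pow p hE τ (tv k)

theorem gr_sum_eq (p : ℕ) [Fact p.Prime] [CharP k p] (hE : ElAb p E)
    (ρ : ∀ i, Representation k E (V i)) (τ : Representation k E W)
    (A : ∀ i, V i →ₗ[k] W) (B : ∀ i, W →ₗ[k] V i)
    (hBA : ∀ i, B i ∘ₗ A i = LinearMap.id) (hBA' : ∀ i j, i ≠ j → B i ∘ₗ A j = 0)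
    (hA : ∀ i x, A i ∘ₗ ρ i x = τ x ∘ₗ A i) (hB : ∀ i x, B i ∘ₗ τ x = ρ i x ∘ₗ B i)
    (hs : ∑ i, A i ∘ₗ B i = LinearMap.id) :
    ∑ i, gr p (ρ i) = gr p τ := by
  have hp : p.Prime := Fact.out
  unfold gr
  refine hrk_sum_eq (K := Kf k E) (V := fun i => Kf k E ⊗[k] V i) (W := Kf k E ⊗[k] W) p hp.pos
    (fun i => spOp (Kf k E) (ρ i) (tv k)) (spOp (Kf k E) τ (tv k))
    (fun i => (A i).baseChange (Kf k E)) (fun i => (B i).baseChange (Kf k E)) ?_ ?_ ?_ ?_ ?_ ?_
  · intro i
    rw [← LinearMap.baseChange_comp, hBA i, LinearMap.baseChange_id]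
  · intro i j hij
    rw [← LinearMap.baseChange_comp, hBA' i j hij, LinearMap.baseChange_zero]
  · intro i
    exact spOp_intertwine (ρ i) τ (A i) (hA i) (tv k)
  · intro i
    exact spOp_intertwine τ (ρ i) (B i) (hB i) (tv k)
  · exact spOp_pow p hE τ (tv k)
  · have h : ∀ i, (A i).baseChange (Kf k E) ∘ₗ (B i).baseChange (Kf k E)
        = LinearMap.baseChangeHom k (Kf k E) W W (A i ∘ₗ B i) := by
      intro i
      rw [← LinearMap.baseChange_comp]
      rfl
    simp_rw [h]
    rw [← map_sum, hs]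
    exact LinearMap.baseChange_id

end family

theorem gr_pos (p : ℕ) [Fact p.Prime] [CharP k p] (hE : ElAb p E) {V : Type}
    [AddCommGroup V] [Module k V] [FiniteDimensional k V] (ρ : Representation k E V)
    (hd : ¬ p ∣ Module.finrank k V) : 0 < gr p ρ := by
  have hp : p.Prime := Fact.out
  unfold gr
  apply hrk_pos p hp.pos _ (spOp_pow p hE ρ (tv k))
  rw [Module.finrank_baseChange]
  exact hd

end Pool.Agent.Helper24.MA
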