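import Pool.Agent.Helper24.MA.Defs

/-!
# hrk of a direct sum (module MA-01)

Let `N' ^ p = 0` on `W`, and let `A i : V i → W`, `B i : W → V i` with `B i A i = 1`, `B i A j = 0`
for `i ≠ j`, commuting with the operators. PROOF of `hrk_sum_le`: `range (N' ^ (p-1)) ≤ ker N'`.
Consider the linear map from the product of the `ker (N i)` to `ker N' / range (N' ^ (p-1))`,
`(v_i) ↦ ∑ A i v_i`. If `∑ A j v_j = N' ^ (p-1) w` then applying `B i` gives
`v_i = (N i) ^ (p-1) (B i w)`, so the kernel of this map lies in the product of the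
`range ((N i) ^ (p-1))`. Also `range ((N i) ^ (p-1)) ≤ ker (N i)` because `(N i) ^ p = 0`
(`(N i) ^ p = B i A i (N i) ^ p = B i N' ^ p A i = 0`). Hence
`∑ dim ker (N i) ≤ ∑ dim range ((N i) ^ (p-1)) + dim ker N' - dim range (N' ^ (p-1))`, which is the claim
(all the subtractions in `ℕ` are exact). `hrk_sum_eq`: if moreover `∑ A i B i = 1`, then
`dim ker N' ≤ ∑ dim ker (N i)` (the map `w ↦ (B i w)` is injective on `ker N'` and has values in the
product of the `ker (N i)`), and `∑ dim range ((N i) ^ (p-1)) ≤ dim range (N' ^ (p-1))` (the map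
`(v_i) ↦ ∑ A i v_i` is injective and maps the product of the `range ((N i) ^ (p-1))` into
`range (N' ^ (p-1))`), so `hrk p N' ≤ ∑ hrk p (N i)`.
-/

namespace Pool.Agent.Helper24.MA

variable {K : Type} [Field K] {ι : Type} [Fintype ι] [DecidableEq ι] {V : ι → Type}
  [∀ i, AddCommGroup (V i)] [∀ i, Module K (V i)] [∀ i, FiniteDimensional K (V i)]
  {W : Type} [AddCommGroup W] [Module K W] [FiniteDimensional K W]

/-- the map `v ↦ ∑ A i v_i` on a product of submodules -/
private noncomputable def psi (A : ∀ i, V i →ₗ[K] W) (q : ∀ i, Submodule K (V i)) :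
    (∀ i, q i) →ₗ[K] W :=
  ∑ i, A i ∘ₗ (q i).subtype ∘ₗ LinearMap.proj i

omit [DecidableEq ι] [∀ i, FiniteDimensional K (V i)] [FiniteDimensional K W] in
private lemma psi_apply (A : ∀ i, V i →ₗ[K] W) (q : ∀ i, Submodule K (V i)) (v : ∀ i, q i) :
    psi A q v = ∑ i, A i (v i : V i) := by
  simp [psi]

omit [DecidableEq ι] [∀ i, FiniteDimensional K (V i)] [FiniteDimensional K W] in
private lemma B_psi (A : ∀ i, V i →ₗ[K] W) (B : ∀ i, W →ₗ[K] V i)
    (hBA : ∀ i, B i ∘ₗ A i = LinearMap.id) (hBA' : ∀ i j, i ≠ j → B i ∘ₗ A j = 0)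
    (q : ∀ i, Submodule K (V i)) (v : ∀ i, q i) (j : ι) : B j (psi A q v) = (v j : V j) := by
  classical
  rw [psi_apply, map_sum, Finset.sum_eq_single j]
  · have := LinearMap.congr_fun (hBA j) (v j : V j)
    simpa using this
  · intro i _ hij
    have := LinearMap.congr_fun (hBA' j i (Ne.symm hij)) (v i : V i)
    simpa using this
  · intro h
    exact absurd (Finset.mem_univ j) h

omit [DecidableEq ι] [FiniteDimensional K W] in
private lemma finrank_psi (A : ∀ i, V i →ₗ[K] W) (B : ∀ i, W →ₗ[K] V i)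
    (hBA : ∀ i, B i ∘ₗ A i = LinearMap.id) (hBA' : ∀ i j, i ≠ j → B i ∘ₗ A j = 0)
    (q : ∀ i, Submodule K (V i)) :
    Module.finrank K (LinearMap.range (psi A q)) = ∑ i, Module.finrank K (q i) := by
  have hinj : Function.Injective (psi A q) := by
    intro v v' h
    funext j
    apply Subtype.ext
    rw [← B_psi A B hBA hBA' q v j, h, B_psi A B hBA hBA' q v' j]
  rw [LinearMap.finrank_range_of_inj hinj, Module.finrank_pi_fintype]

omit [Fintype ι] [DecidableEq ι] [∀ i, FiniteDimensional K (V i)] [FiniteDimensional K W] in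
private lemma A_pow (N : ∀ i, V i →ₗ[K] V i) (N' : W →ₗ[K] W) (A : ∀ i, V i →ₗ[K] W)
    (hA : ∀ i, A i ∘ₗ N i = N' ∘ₗ A i) (n : ℕ) (i : ι) (v : V i) :
    A i (((N i) ^ n) v) = (N' ^ n) (A i v) := by
  induction n generalizing v with
  | zero => simp
  | succ n ih =>
    rw [pow_succ, pow_succ, Module.End.mul_apply, Module.End.mul_apply, ih]
    have := LinearMap.congr_fun (hA i) v
    simp only [LinearMap.comp_apply] at this
    rw [this]

omit [Fintype ι] [DecidableEq ι] [∀ i, FiniteDimensional K (V i)] [FiniteDimensional K W] in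
private lemma B_pow (N : ∀ i, V i →ₗ[K] V i) (N' : W →ₗ[K] W) (B : ∀ i, W →ₗ[K] V i)
    (hB : ∀ i, B i ∘ₗ N' = N i ∘ₗ B i) (n : ℕ) (i : ι) (w : W) :
    B i ((N' ^ n) w) = ((N i) ^ n) (B i w) := by
  induction n generalizing w with
  | zero => simp
  | succ n ih =>
    rw [pow_succ, pow_succ, Module.End.mul_apply, Module.End.mul_apply, ih]
    have := LinearMap.congr_fun (hB i) w
    simp only [LinearMap.comp_apply] at this
    rw [this]

omit [Fintype ι] [DecidableEq ι] [∀ i, FiniteDimensional K (V i)] [FiniteDimensional K W] in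
private lemma N_pow_zero (p : ℕ) (N : ∀ i, V i →ₗ[K] V i) (N' : W →ₗ[K] W)
    (A : ∀ i, V i →ₗ[K] W) (B : ∀ i, W →ₗ[K] V i)
    (hBA : ∀ i, B i ∘ₗ A i = LinearMap.id)
    (hA : ∀ i, A i ∘ₗ N i = N' ∘ₗ A i) (hN' : N' ^ p = 0) (i : ι) : (N i) ^ p = 0 := by
  ext v
  have h1 := LinearMap.congr_fun (hBA i) (((N i) ^ p) v)
  simp only [LinearMap.comp_apply, LinearMap.id_apply] at h1
  rw [← h1, A_pow N N' A hA p i v, hN']
  simp

omit [FiniteDimensional K W] in
private lemma range_le_ker {U : Type} [AddCommGroup U] [Module K U] (p : ℕ) (hp : 0 < p)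
    (M : U →ₗ[K] U) (h : M ^ p = 0) : LinearMap.range (M ^ (p - 1)) ≤ LinearMap.ker M := by
  rintro _ ⟨u, rfl⟩
  rw [LinearMap.mem_ker, ← Module.End.mul_apply, ← pow_succ', Nat.sub_add_cancel hp, h]
  simp

theorem hrk_sum_le (p : ℕ) (hp : 0 < p) (N : ∀ i, V i →ₗ[K] V i) (N' : W →ₗ[K] W)
    (A : ∀ i, V i →ₗ[K] W) (B : ∀ i, W →ₗ[K] V i)
    (hBA : ∀ i, B i ∘ₗ A i = LinearMap.id) (hBA' : ∀ i j, i ≠ j → B i ∘ₗ A j = 0)
    (hA : ∀ i, A i ∘ₗ N i = N' ∘ₗ A i) (hB : ∀ i, B i ∘ₗ N' = N i ∘ₗ B i)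
    (hN' : N' ^ p = 0) :
    ∑ i, hrk p (N i) ≤ hrk p N' := by
  classical
  have hNi := N_pow_zero p N N' A B hBA hA hN'
  have hle : ∀ i, Module.finrank K (LinearMap.range ((N i) ^ (p - 1))) ≤
      Module.finrank K (LinearMap.ker (N i)) := fun i =>
    Submodule.finrank_mono (range_le_ker p hp (N i) (hNi i))
  have hle' : LinearMap.range (N' ^ (p - 1)) ≤ LinearMap.ker N' := range_le_ker p hp N' hN'
  unfold hrk
  rw [Finset.sum_tsub_distrib _ fun i _ => hle i]
  set S := LinearMap.range (psi A fun i => LinearMap.ker (N i)) with hS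
  set T := LinearMap.range (psi A fun i => LinearMap.range ((N i) ^ (p - 1))) with hT
  set R := LinearMap.range (N' ^ (p - 1)) with hR
  have hSd : Module.finrank K S = ∑ i, Module.finrank K (LinearMap.ker (N i)) :=
    finrank_psi A B hBA hBA' _
  have hTd : Module.finrank K T = ∑ i, Module.finrank K (LinearMap.range ((N i) ^ (p - 1))) :=
    finrank_psi A B hBA hBA' _
  have h1 : S ⊓ R ≤ T := by
    rintro _ ⟨⟨v, rfl⟩, ⟨w, hw⟩⟩
    have hv : ∀ j, (v j : V j) = ((N j) ^ (p - 1)) (B j w) := by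
      intro j
      rw [← B_pow N N' B hB, hw, B_psi A B hBA hBA']
    refine ⟨fun j => ⟨(v j : V j), ⟨B j w, (hv j).symm⟩⟩, ?_⟩
    rw [psi_apply, psi_apply]
  have h2 : S ≤ LinearMap.ker N' := by
    rintro _ ⟨v, rfl⟩
    rw [LinearMap.mem_ker, psi_apply, map_sum]
    apply Finset.sum_eq_zero
    intro i _
    have := LinearMap.congr_fun (hA i) (v i : V i)
    simp only [LinearMap.comp_apply] at this
    rw [← this, LinearMap.mem_ker.1 (v i).2, map_zero]
  have h3 : Module.finrank K ↥(S ⊔ R) ≤ Module.finrank K (LinearMap.ker N') :=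
    Submodule.finrank_mono (sup_le h2 hle')
  have h4 := Submodule.finrank_sup_add_finrank_inf_eq S R
  have h5 : Module.finrank K ↥(S ⊓ R) ≤ Module.finrank K T := Submodule.finrank_mono h1
  rw [← hSd, ← hTd]
  omega

theorem hrk_sum_eq (p : ℕ) (hp : 0 < p) (N : ∀ i, V i →ₗ[K] V i) (N' : W →ₗ[K] W)
    (A : ∀ i, V i →ₗ[K] W) (B : ∀ i, W →ₗ[K] V i)
    (hBA : ∀ i, B i ∘ₗ A i = LinearMap.id) (hBA' : ∀ i j, i ≠ j → B i ∘ₗ A j = 0)
    (hA : ∀ i, A i ∘ₗ N i = N' ∘ₗ A i) (hB : ∀ i, B i ∘ₗ N' = N i ∘ₗ B i)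
    (hN' : N' ^ p = 0) (hs : ∑ i, A i ∘ₗ B i = LinearMap.id) :
    ∑ i, hrk p (N i) = hrk p N' := by
  classical
  apply le_antisymm (hrk_sum_le p hp N N' A B hBA hBA' hA hB hN')
  have hNi := N_pow_zero p N N' A B hBA hA hN'
  have hle : ∀ i, Module.finrank K (LinearMap.range ((N i) ^ (p - 1))) ≤
      Module.finrank K (LinearMap.ker (N i)) := fun i =>
    Submodule.finrank_mono (range_le_ker p hp (N i) (hNi i))
  unfold hrk
  rw [Finset.sum_tsub_distrib _ fun i _ => hle i]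
  rw [← finrank_psi A B hBA hBA' (fun i => LinearMap.ker (N i)),
    ← finrank_psi A B hBA hBA' (fun i => LinearMap.range ((N i) ^ (p - 1)))]
  apply tsub_le_tsub
  · apply Submodule.finrank_mono
    intro w hw
    refine ⟨fun i => ⟨B i w, ?_⟩, ?_⟩
    · have := LinearMap.congr_fun (hB i) w
      simp only [LinearMap.comp_apply] at this
      rw [LinearMap.mem_ker, ← this, LinearMap.mem_ker.1 hw, map_zero]
    · rw [psi_apply]
      have := LinearMap.congr_fun hs w
      simpa using this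
  · apply Submodule.finrank_mono
    rintro _ ⟨v, rfl⟩
    rw [psi_apply]
    apply Submodule.sum_mem
    intro i _
    obtain ⟨u, hu⟩ := (v i).2
    exact ⟨A i u, by rw [← A_pow N N' A hA, hu]⟩

end Pool.Agent.Helper24.MA
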